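import Pool.Agent.Q3.FFKr.Poly

/-!
# Digital Kronecker sequences over function fields: counts in residue classes
-/

set_option autoImplicit false

open Filter Topology Set Polynomial

namespace Pool.Agent.Q3.FFKr

open Pool.Agent.Q3.CantorS

variable {F : Type} [Field F] [Fintype F]

/-- `ev_q(⟨g Θ⟩)`. -/
noncomputable def KK (E : F ≃ Fin (Fintype.card F)) (a : ℤ → F) (g : F[X]) : ℝ :=
  val (fun _ => Fintype.card F) (fun k => (E (act g a ((k : ℤ) + 1)) : ℕ))

/-- The badness condition, with an integer constant. -/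
def BadC (P : F[X]) (a : ℤ → F) (c0 : ℕ) : Prop :=
  ∀ (i : ℕ) (N : F[X]), N ≠ 0 → ∃ j : ℕ, j < N.natDegree + c0 ∧ act (N * P ^ i) a ((j : ℤ) + 1) ≠ 0

omit [Fintype F] in
theorem hankel_bad {P : F[X]} {a : ℤ → F} {c0 : ℕ} (hb : BadC P a c0) (i : ℕ) (s : ℕ)
    (u : Fin s → F) (hu : u ≠ 0) :
    ∃ j < s + c0, ∑ l : Fin s, u l * (fun k : ℕ => act (P ^ i) a ((k : ℤ) + 1)) (j + l) ≠ 0 := by
  have hne : polyOf u ≠ 0 := by
    intro h
    apply hu
    apply polyOf_inj
    rw [h]
    unfold polyOf
    simp
  obtain ⟨j, hj, hj2⟩ := hb i (polyOf u) hne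
  refine ⟨j, ?_, ?_⟩
  · have h1 := polyOf_degree u
    rw [degree_eq_natDegree hne] at h1
    have : (polyOf u).natDegree < s := by exact_mod_cast h1
    omega
  · rw [act_mul, act_polyOf] at hj2
    intro h0
    apply hj2
    rw [← h0]
    refine Finset.sum_congr rfl fun l _ => ?_
    simp only
    congr 2
    push_cast; ring

open Classical in
/-- Count in a block of numbers and a residue class. -/
theorem block_class (E : F ≃ Fin (Fintype.card F)) (hE : (E 0 : ℕ) = 0) {P : F[X]} (hP : P ≠ 0)
    {a : ℤ → F} {c0 : ℕ} (hb : BadC P a c0) (i : ℕ) (R : F[X]) (M r : ℕ) (γ : ℝ) (h0 : 0 ≤ γ)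
    (h1 : γ ≤ 1) :
    |(((Finset.Ico (M * Fintype.card F ^ r) ((M + 1) * Fintype.card F ^ r)).filter
      (fun n => P ^ i ∣ np E n - R ∧ KK E a (np E n) < γ)).card : ℝ) -
      γ * (Fintype.card F : ℝ) ^ r / (Fintype.card F : ℝ) ^ (P.natDegree * i)| ≤
      2 * (Fintype.card F : ℝ) ^ c0 + 1 := by
  have hq2 : 2 ≤ Fintype.card F := Fintype.one_lt_card
  have hqr : (1 : ℝ) ≤ Fintype.card F := by exact_mod_cast (show 1 ≤ Fintype.card F by omega)
  have hqp : (0 : ℝ) < Fintype.card F := by linarith
  have hcb : ((Finset.Ico (M * Fintype.card F ^ r) ((M + 1) * Fintype.card F ^ r)).filter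
      (fun n => P ^ i ∣ np E n - R ∧ KK E a (np E n) < γ)).card =
      (Finset.univ.filter (fun u : Fin r → F => P ^ i ∣ (X ^ r * np E M + polyOf u) - R ∧
        KK E a (X ^ r * np E M + polyOf u) < γ)).card := by
    convert count_block E hE M r (fun g => P ^ i ∣ g - R ∧ KK E a g < γ)
  rw [hcb]
  obtain ⟨f, hf⟩ : ∃ f, f = X ^ r * np E M := ⟨_, rfl⟩
  rw [← hf]
  have hG : P ^ i ≠ 0 := pow_ne_zero _ hP
  have hGd : (P ^ i).natDegree = P.natDegree * i := by rw [natDegree_pow, mul_comm]
  rcases le_or_gt (P.natDegree * i) r with hle | hgt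
  · obtain ⟨w0, hw0⟩ := count_class r hG (by rw [hGd]; exact hle) f R
      (fun g => KK E a (f + g) < γ)
    have hw0' : (Finset.univ.filter (fun u : Fin r → F => P ^ i ∣ f + polyOf u - R ∧
        KK E a (f + polyOf u) < γ)).card = (Finset.univ.filter
        (fun v : Fin (r - (P ^ i).natDegree) → F => KK E a (f + (w0 + P ^ i * polyOf v)) < γ)).card := by
      convert hw0
    rw [hw0']
    have h2 := kron_count E (ψ := fun k : ℕ => act (P ^ i) a ((k : ℤ) + 1)) (c0 := c0)
      (fun s u hu => hankel_bad hb i s u hu) (fun k => act (f + w0) a ((k : ℤ) + 1))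
      (r - (P ^ i).natDegree) γ h0 h1
    have h3 : ∀ v : Fin (r - (P ^ i).natDegree) → F, KK E a (f + (w0 + P ^ i * polyOf v)) =
        val (fun _ => Fintype.card F) (fun k => (E (act (f + w0) a ((k : ℤ) + 1) +
        ∑ l : Fin (r - (P ^ i).natDegree), v l * (fun k : ℕ => act (P ^ i) a ((k : ℤ) + 1)) (k + l)) : ℕ)) := by
      intro v
      unfold KK
      congr 1
      funext k
      have e1 : f + (w0 + P ^ i * polyOf v) = (f + w0) + polyOf v * P ^ i := by ring
      have hs : ∑ l : Fin (r - (P ^ i).natDegree), v l * act (P ^ i) a ((k : ℤ) + 1 + (l : ℕ)) =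
          ∑ l : Fin (r - (P ^ i).natDegree), v l *
            (fun k : ℕ => act (P ^ i) a ((k : ℤ) + 1)) (k + l) := by
        refine Finset.sum_congr rfl fun l _ => ?_
        simp only
        congr 2
        push_cast; ring
      rw [e1, act_add, act_mul, act_polyOf, hs]
    have hfin : Finset.univ.filter
        (fun v : Fin (r - (P ^ i).natDegree) → F => KK E a (f + (w0 + P ^ i * polyOf v)) < γ) =
        Finset.univ.filter (fun v : Fin (r - (P ^ i).natDegree) → F =>
        val (fun _ => Fintype.card F) (fun k => (E (act (f + w0) a ((k : ℤ) + 1) +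
        ∑ l : Fin (r - (P ^ i).natDegree), v l * (fun k : ℕ => act (P ^ i) a ((k : ℤ) + 1)) (k + l)) : ℕ))
          < γ) := by
      ext v
      simp only [Finset.mem_filter, Finset.mem_univ, true_and]
      rw [h3 v]
    rw [hfin]
    have h4 : γ * (Fintype.card F : ℝ) ^ r / (Fintype.card F : ℝ) ^ (P.natDegree * i) =
        γ * (Fintype.card F : ℝ) ^ (r - (P ^ i).natDegree) := by
      rw [hGd, mul_div_assoc]
      congr 1
      rw [div_eq_iff (by positivity), ← pow_add]
      congr 1
      omega
    rw [h4]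
    exact h2.trans (by linarith)
  · have h2 := count_class_small r (G := P ^ i) (by rw [hGd]; exact hgt.le) f R
      (fun g => KK E a (f + g) < γ)
    have h2' : (Finset.univ.filter (fun u : Fin r → F => P ^ i ∣ f + polyOf u - R ∧
        KK E a (f + polyOf u) < γ)).card ≤ 1 := by convert h2
    have h3 : ((Finset.univ.filter (fun u : Fin r → F => P ^ i ∣ f + polyOf u - R ∧
        KK E a (f + polyOf u) < γ)).card : ℝ) ≤ 1 := by exact_mod_cast h2'
    have h4 : γ * (Fintype.card F : ℝ) ^ r / (Fintype.card F : ℝ) ^ (P.natDegree * i) ≤ 1 := by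
      rw [div_le_one (by positivity)]
      have h5 : (Fintype.card F : ℝ) ^ r ≤ (Fintype.card F : ℝ) ^ (P.natDegree * i) :=
        pow_le_pow_right₀ hqr hgt.le
      have h6 : (0 : ℝ) < (Fintype.card F : ℝ) ^ r := by positivity
      nlinarith
    have h5 : 0 ≤ γ * (Fintype.card F : ℝ) ^ r / (Fintype.card F : ℝ) ^ (P.natDegree * i) := by
      positivity
    have h6 : (0 : ℝ) ≤ ((Finset.univ.filter (fun u : Fin r → F => P ^ i ∣ f + polyOf u - R ∧
        KK E a (f + polyOf u) < γ)).card : ℝ) := Nat.cast_nonneg _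
    have h7 : (0 : ℝ) < (Fintype.card F : ℝ) ^ c0 := by positivity
    rw [abs_le]
    constructor <;> linarith

/-- Number of base `q` digits. -/
def LL (q N : ℕ) : ℕ := if N = 0 then 0 else Nat.log q N + 1

theorem LL_rec {q N : ℕ} (hq : 2 ≤ q) (hN : N ≠ 0) : LL q N = LL q (N / q) + 1 := by
  unfold LL
  rw [if_neg hN]
  rcases lt_or_ge N q with h | h
  · rw [Nat.div_eq_of_lt h, if_pos rfl, Nat.log_of_lt h]
  · have h1 : N / q ≠ 0 := by
      have : 1 ≤ N / q := (Nat.one_le_div_iff (by omega)).2 h
      omega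
    rw [if_neg h1, Nat.log_of_one_lt_of_le (by omega) h]

open Classical in
/-- Count up to `N q^r` in a residue class. -/
theorem class_count (E : F ≃ Fin (Fintype.card F)) (hE : (E 0 : ℕ) = 0) {P : F[X]} (hP : P ≠ 0)
    {a : ℤ → F} {c0 : ℕ} (hb : BadC P a c0) (i : ℕ) (R : F[X]) (γ : ℝ) (h0 : 0 ≤ γ)
    (h1 : γ ≤ 1) (N r : ℕ) :
    |(((Finset.range (N * Fintype.card F ^ r)).filter
      (fun n => P ^ i ∣ np E n - R ∧ KK E a (np E n) < γ)).card : ℝ) -
      γ * (N * (Fintype.card F : ℝ) ^ r) / (Fintype.card F : ℝ) ^ (P.natDegree * i)| ≤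
      (2 * (Fintype.card F : ℝ) ^ c0 + 1) * Fintype.card F * LL (Fintype.card F) N := by
  have hq2 : 2 ≤ Fintype.card F := Fintype.one_lt_card
  have hqp : (0 : ℝ) < Fintype.card F := by exact_mod_cast (show 0 < Fintype.card F by omega)
  induction N using Nat.strong_induction_on generalizing r with
  | _ N ih =>
    rcases Nat.eq_zero_or_pos N with hN | hN
    · subst hN; simp [LL]
    · -- last digit
      have hN' : N / Fintype.card F < N := Nat.div_lt_self hN (by omega)
      have h2 := ih (N / Fintype.card F) hN' (r + 1)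
      rw [LL_rec hq2 (by omega)]
      obtain ⟨N', hN'd⟩ : ∃ N', N' = N / Fintype.card F := ⟨_, rfl⟩
      obtain ⟨d, hd⟩ : ∃ d, d = N % Fintype.card F := ⟨_, rfl⟩
      have hNd : N = Fintype.card F * N' + d := by rw [hN'd, hd]; exact (Nat.div_add_mod _ _).symm
      have hdq : d < Fintype.card F := by rw [hd]; exact Nat.mod_lt _ (by omega)
      rw [← hN'd] at h2 ⊢
      have key : ∀ δ : ℕ, |(((Finset.range ((Fintype.card F * N' + δ) * Fintype.card F ^ r)).filter
          (fun n => P ^ i ∣ np E n - R ∧ KK E a (np E n) < γ)).card : ℝ) -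
          γ * ((Fintype.card F * N' + δ) * (Fintype.card F : ℝ) ^ r) /
            (Fintype.card F : ℝ) ^ (P.natDegree * i)| ≤
          (2 * (Fintype.card F : ℝ) ^ c0 + 1) * Fintype.card F * LL (Fintype.card F) N' +
            (2 * (Fintype.card F : ℝ) ^ c0 + 1) * δ := by
        intro δ
        induction δ with
        | zero =>
          have e1 : (Fintype.card F * N' + 0) * Fintype.card F ^ r = N' * Fintype.card F ^ (r + 1) := by
            rw [pow_succ]; ring
          have e2 : ((Fintype.card F : ℝ) * N' + ((0 : ℕ) : ℝ)) * (Fintype.card F : ℝ) ^ r =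
              N' * (Fintype.card F : ℝ) ^ (r + 1) := by rw [pow_succ]; push_cast; ring
          rw [e1, e2]
          simpa using h2
        | succ δ ihδ =>
          have hb2 := block_class E hE hP hb i R (Fintype.card F * N' + δ) r γ h0 h1
          have hsplit : ((Finset.range ((Fintype.card F * N' + (δ + 1)) * Fintype.card F ^ r)).filter
              (fun n => P ^ i ∣ np E n - R ∧ KK E a (np E n) < γ)).card =
              ((Finset.range ((Fintype.card F * N' + δ) * Fintype.card F ^ r)).filter
              (fun n => P ^ i ∣ np E n - R ∧ KK E a (np E n) < γ)).card +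
              ((Finset.Ico ((Fintype.card F * N' + δ) * Fintype.card F ^ r)
              ((Fintype.card F * N' + δ + 1) * Fintype.card F ^ r)).filter
              (fun n => P ^ i ∣ np E n - R ∧ KK E a (np E n) < γ)).card := by
            rw [← Finset.card_union_of_disjoint, ← Finset.filter_union]
            · congr 2
              rw [Finset.range_eq_Ico, Finset.range_eq_Ico]
              rw [Finset.Ico_union_Ico_eq_Ico (Nat.zero_le _)
                (Nat.mul_le_mul_right _ (Nat.le_succ _))]
              rfl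
            · apply Finset.disjoint_filter_filter
              rw [Finset.disjoint_left]
              intro n hn hn'
              rw [Finset.mem_range] at hn
              rw [Finset.mem_Ico] at hn'
              omega
          rw [hsplit]
          push_cast
          have e3 : γ * (((Fintype.card F : ℝ) * N' + (δ + 1)) * (Fintype.card F : ℝ) ^ r) /
              (Fintype.card F : ℝ) ^ (P.natDegree * i) =
              γ * (((Fintype.card F : ℝ) * N' + δ) * (Fintype.card F : ℝ) ^ r) /
              (Fintype.card F : ℝ) ^ (P.natDegree * i) +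
              γ * (Fintype.card F : ℝ) ^ r / (Fintype.card F : ℝ) ^ (P.natDegree * i) := by ring
          rw [e3]
          obtain ⟨l1, l2⟩ := abs_le.1 ihδ
          obtain ⟨l3, l4⟩ := abs_le.1 hb2
          rw [abs_le]
          constructor <;> linarith
      have h3 := key d
      rw [← hNd] at h3
      have e4 : ((Fintype.card F : ℝ) * N' + (d : ℝ)) = (N : ℝ) := by
        rw [hNd]; push_cast; ring
      rw [e4] at h3
      refine h3.trans ?_
      have h5 : (d : ℝ) ≤ Fintype.card F := by exact_mod_cast hdq.le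
      have h6 : (0 : ℝ) < (Fintype.card F : ℝ) ^ c0 := by positivity
      push_cast
      nlinarith

/-! ### the van der Corput part -/

/-- `ev_q` of a polynomial of degree less than `e`. -/
def evn (E : F ≃ Fin (Fintype.card F)) (e : ℕ) (b : F[X]) : ℕ :=
  ∑ l ∈ Finset.range e, (E (b.coeff l) : ℕ) * Fintype.card F ^ l

theorem evn_lt (E : F ≃ Fin (Fintype.card F)) (e : ℕ) (b : F[X]) : evn E e b < Fintype.card F ^ e := by
  have hq : 0 < Fintype.card F := Fintype.card_pos
  induction e with
  | zero => simp [evn]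
  | succ e ih =>
    unfold evn at ih ⊢
    rw [Finset.sum_range_succ, pow_succ]
    have h1 : (E (b.coeff e) : ℕ) + 1 ≤ Fintype.card F := (E (b.coeff e)).2
    have h2 : ((E (b.coeff e) : ℕ) + 1) * Fintype.card F ^ e ≤
        Fintype.card F * Fintype.card F ^ e := Nat.mul_le_mul_right _ h1
    rw [add_mul, one_mul] at h2
    rw [mul_comm (Fintype.card F ^ e)]
    omega

theorem evn_inj (E : F ≃ Fin (Fintype.card F)) {e : ℕ} {b b' : F[X]} (h : evn E e b = evn E e b') :
    ∀ l < e, b.coeff l = b'.coeff l := by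
  have hq : 0 < Fintype.card F := Fintype.card_pos
  induction e with
  | zero => intro l hl; omega
  | succ e ih =>
    have h1 := evn_lt E e b
    have h2 := evn_lt E e b'
    unfold evn at h h1 h2 ih
    rw [Finset.sum_range_succ, Finset.sum_range_succ] at h
    have h3 : (E (b.coeff e) : ℕ) = E (b'.coeff e) := by
      have e1 := congrArg (· / Fintype.card F ^ e) h
      simp only [Nat.add_mul_div_right _ _ (show 0 < Fintype.card F ^ e by positivity)] at e1
      rw [Nat.div_eq_of_lt h1, Nat.div_eq_of_lt h2] at e1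
      omega
    rw [h3] at h
    have h4 := ih (Nat.add_right_cancel h)
    intro l hl
    rcases Nat.lt_succ_iff_lt_or_eq.1 hl with h5 | h5
    · exact h4 l h5
    · rw [h5]; exact E.injective (Fin.ext h3)

theorem evn_surj (E : F ≃ Fin (Fintype.card F)) (e : ℕ) {d : ℕ} (hd : d < Fintype.card F ^ e) :
    ∃ b : F[X], b.degree < e ∧ evn E e b = d := by
  refine ⟨polyOf (dvec E e d), polyOf_degree _, ?_⟩
  have key : ∀ l, l ≤ e → ∑ j ∈ Finset.range l, (E ((polyOf (dvec E e d)).coeff j) : ℕ) *
      Fintype.card F ^ j = d % Fintype.card F ^ l := by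
    intro l
    induction l with
    | zero => intro _; simp [Nat.mod_one]
    | succ l ih =>
      intro hl
      rw [Finset.sum_range_succ, ih (by omega), Nat.mod_pow_succ, polyOf_coeff, dif_pos (by omega)]
      unfold dvec
      simp only
      rw [E_dF, mul_comm]
  unfold evn
  rw [key e le_rfl, Nat.mod_eq_of_lt hd]

/-- Digits of `g` in base `P`. -/
noncomputable def vd (E : F ≃ Fin (Fintype.card F)) (P g : F[X]) (j : ℕ) : ℕ :=
  evn E P.natDegree ((g / P ^ j) % P)

theorem vd_lt (E : F ≃ Fin (Fintype.card F)) (P g : F[X]) (j : ℕ) :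
    vd E P g j < Fintype.card F ^ P.natDegree := evn_lt _ _ _

/-- Prefix integers. -/
noncomputable def AA (E : F ≃ Fin (Fintype.card F)) (P g : F[X]) (i : ℕ) : ℕ :=
  aN (fun _ => Fintype.card F ^ P.natDegree) (vd E P g) i

theorem AA_succ (E : F ≃ Fin (Fintype.card F)) (P g : F[X]) (i : ℕ) :
    AA E P g (i + 1) = Fintype.card F ^ P.natDegree * AA E P g i + vd E P g i := rfl

omit [Fintype F] in
theorem sub_div_of_dvd {P : F[X]} (hP : P ≠ 0) {i : ℕ} {g g' : F[X]} (h : P ^ i ∣ g - g') :
    g - g' = P ^ i * (g / P ^ i - g' / P ^ i) := by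
  have hG : P ^ i ≠ 0 := pow_ne_zero _ hP
  have h1 := EuclideanDomain.div_add_mod g (P ^ i)
  have h2 := EuclideanDomain.div_add_mod g' (P ^ i)
  have h3 : g % P ^ i = g' % P ^ i := by
    have hd : P ^ i ∣ g % P ^ i - g' % P ^ i := by
      have : g % P ^ i - g' % P ^ i = (g - g') - P ^ i * (g / P ^ i - g' / P ^ i) := by
        linear_combination h1 - h2
      rw [this]
      exact dvd_sub h (dvd_mul_right _ _)
    have hdeg : (g % P ^ i - g' % P ^ i).degree < (P ^ i).degree :=
      lt_of_le_of_lt (degree_sub_le _ _) (max_lt (degree_mod_lt _ hG) (degree_mod_lt _ hG))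
    have := eq_zero_of_dvd_of_degree_lt hd hdeg
    exact sub_eq_zero.1 this
  linear_combination h2 - h1 + h3

omit [Fintype F] in
theorem mod_eq_of_dvd {P b b' : F[X]} (hP : P ≠ 0) (h : P ∣ b - b') : b % P = b' % P := by
  have h1 := EuclideanDomain.div_add_mod b P
  have h2 := EuclideanDomain.div_add_mod b' P
  have hd : P ∣ b % P - b' % P := by
    have : b % P - b' % P = (b - b') - P * (b / P - b' / P) := by linear_combination h1 - h2
    rw [this]
    exact dvd_sub h (dvd_mul_right _ _)
  have hdeg : (b % P - b' % P).degree < P.degree :=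
    lt_of_le_of_lt (degree_sub_le _ _) (max_lt (degree_mod_lt _ hP) (degree_mod_lt _ hP))
  exact sub_eq_zero.1 (eq_zero_of_dvd_of_degree_lt hd hdeg)

omit [Fintype F] in
theorem dvd_of_mod_eq {P b b' : F[X]} (h : b % P = b' % P) : P ∣ b - b' := by
  have h1 := EuclideanDomain.div_add_mod b P
  have h2 := EuclideanDomain.div_add_mod b' P
  refine ⟨b / P - b' / P, ?_⟩
  linear_combination h2 - h1 + h

theorem AA_eq_iff (E : F ≃ Fin (Fintype.card F)) {P : F[X]} (hP : P ≠ 0) (g g' : F[X]) (i : ℕ) :
    AA E P g i = AA E P g' i ↔ P ^ i ∣ g - g' := by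
  induction i with
  | zero => simp [AA, aN]
  | succ i ih =>
    rw [AA_succ, AA_succ]
    have hv := vd_lt E P g i
    have hv' := vd_lt E P g' i
    constructor
    · intro h
      have h1 : vd E P g i = vd E P g' i := by
        have := congrArg (· % Fintype.card F ^ P.natDegree) h
        simp only [Nat.mul_add_mod] at this
        rwa [Nat.mod_eq_of_lt hv, Nat.mod_eq_of_lt hv'] at this
      have h2 : AA E P g i = AA E P g' i := by
        rw [h1] at h
        exact Nat.eq_of_mul_eq_mul_left (lt_of_le_of_lt (Nat.zero_le _) hv) (Nat.add_right_cancel h)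
      have h3 := ih.1 h2
      have h4 := sub_div_of_dvd hP h3
      have h5 : (g / P ^ i) % P = (g' / P ^ i) % P := by
        have h6 := evn_inj E h1
        have hd1 := degree_mod_lt (g / P ^ i) hP
        have hd2 := degree_mod_lt (g' / P ^ i) hP
        rw [degree_eq_natDegree hP] at hd1 hd2
        ext l
        rcases lt_or_ge l P.natDegree with hl | hl
        · exact h6 l hl
        · rw [degree_lt_iff_coeff_zero] at hd1 hd2
          rw [hd1 l hl, hd2 l hl]
      have h7 := dvd_of_mod_eq h5
      rw [h4, pow_succ]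
      exact mul_dvd_mul_left _ h7
    · intro h
      have h3 : P ^ i ∣ g - g' := (pow_dvd_pow P (Nat.le_succ i)).trans h
      have h4 := sub_div_of_dvd hP h3
      rw [h4, pow_succ] at h
      have h5 : P ∣ g / P ^ i - g' / P ^ i := (mul_dvd_mul_iff_left (pow_ne_zero i hP)).1 h
      rw [ih.2 h3]
      unfold vd
      rw [mod_eq_of_dvd hP h5]

theorem AA_surj (E : F ≃ Fin (Fintype.card F)) {P : F[X]} (hP : P ≠ 0) (i : ℕ) :
    ∀ u, u < (Fintype.card F ^ P.natDegree) ^ i → ∃ R, AA E P R i = u := by
  induction i with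
  | zero => intro u hu; exact ⟨0, by simp at hu; rw [hu]; rfl⟩
  | succ i ih =>
    intro u hu
    obtain ⟨B, hB⟩ : ∃ B, B = Fintype.card F ^ P.natDegree := ⟨_, rfl⟩
    have hBp : 0 < B := by rw [hB]; exact pow_pos Fintype.card_pos _
    rw [← hB] at hu ih
    have hu1 : u / B < B ^ i := by
      rw [Nat.div_lt_iff_lt_mul hBp, ← pow_succ]; exact hu
    obtain ⟨R', hR'⟩ := ih (u / B) hu1
    have hu2 : u % B < Fintype.card F ^ P.natDegree := by rw [← hB]; exact Nat.mod_lt _ hBp
    obtain ⟨b, hb, hb2⟩ := evn_surj E P.natDegree hu2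
    have hG : P ^ i ≠ 0 := pow_ne_zero _ hP
    refine ⟨R' % P ^ i + P ^ i * b, ?_⟩
    have h1 : AA E P (R' % P ^ i + P ^ i * b) i = u / B := by
      rw [← hR', AA_eq_iff E hP]
      have := EuclideanDomain.div_add_mod R' (P ^ i)
      refine ⟨b - R' / P ^ i, ?_⟩
      linear_combination this
    have h2 : (R' % P ^ i + P ^ i * b) / P ^ i = b := by
      have h3 := sub_div_of_dvd hP (i := i) (g := R' % P ^ i + P ^ i * b) (g' := R' % P ^ i)
        ⟨b, by ring⟩
      have h4 : (R' % P ^ i) / P ^ i = 0 := by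
        rw [Polynomial.div_eq_zero_iff hG]
        exact degree_mod_lt _ hG
      rw [h4, sub_zero, add_sub_cancel_left] at h3
      exact (mul_left_cancel₀ hG h3).symm
    have h3 : vd E P (R' % P ^ i + P ^ i * b) i = u % B := by
      unfold vd
      rw [h2]
      have h4 : b % P = b := by
        rw [mod_eq_self_iff hP, degree_eq_natDegree hP]; exact hb
      rw [h4, hb2]
    rw [AA_succ, h1, h3, ← hB]
    exact Nat.div_add_mod _ _

end Pool.Agent.Q3.FFKr
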