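import Mathlib
import Pool.Agent.Q3.CantorS.Digits

/-!
# Digital Kronecker sequences over function fields: linear algebra and digits
-/

set_option autoImplicit false

open Filter Topology Set

namespace Pool.Agent.Q3.FFKr

open Pool.Agent.Q3.CantorS

variable {F : Type} [Field F] [Fintype F]

/-- The Hankel map. -/
def hank (ψ : ℕ → F) (r s : ℕ) : (Fin r → F) →ₗ[F] (Fin s → F) where
  toFun u j := ∑ l : Fin r, u l * ψ (j + l)
  map_add' u v := by
    funext j; simp only [Pi.add_apply, add_mul, Finset.sum_add_distrib]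
  map_smul' c u := by
    funext j
    simp only [Pi.smul_apply, smul_eq_mul, RingHom.id_apply, Finset.mul_sum, mul_assoc]

omit [Fintype F] in
theorem hank_surj {ψ : ℕ → F} {c0 s : ℕ}
    (hbad : ∀ u : Fin s → F, u ≠ 0 → ∃ j < s + c0, ∑ l : Fin s, u l * ψ (j + l) ≠ 0) :
    Function.Surjective (hank ψ (s + c0) s) := by
  -- the matrix and its transpose
  let M : Matrix (Fin s) (Fin (s + c0)) F := fun j l => ψ (j + l)
  have hM : hank ψ (s + c0) s = M.mulVecLin := by
    refine LinearMap.ext fun u => funext fun j => ?_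
    show ∑ l : Fin (s + c0), u l * ψ (j + l) = ∑ l : Fin (s + c0), ψ (j + l) * u l
    exact Finset.sum_congr rfl fun l _ => mul_comm _ _
  have hMt : hank ψ s (s + c0) = M.transpose.mulVecLin := by
    refine LinearMap.ext fun u => funext fun j => ?_
    show ∑ l : Fin s, u l * ψ (j + l) = ∑ l : Fin s, ψ (l + j) * u l
    exact Finset.sum_congr rfl fun l _ => by rw [mul_comm, add_comm]
  have hinj : Function.Injective (hank ψ s (s + c0)) := by
    rw [← LinearMap.ker_eq_bot, LinearMap.ker_eq_bot']
    intro u hu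
    by_contra hne
    obtain ⟨j, hj, hj2⟩ := hbad u hne
    exact hj2 (congrFun hu ⟨j, hj⟩)
  have h1 : M.transpose.rank = s := by
    unfold Matrix.rank
    rw [← hMt, LinearMap.finrank_range_of_inj hinj]
    simp
  rw [Matrix.rank_transpose] at h1
  unfold Matrix.rank at h1
  rw [← LinearMap.range_eq_top, hM]
  apply Submodule.eq_top_of_finrank_eq
  rw [h1]; simp

open Classical in
/-- Fibres of the shifted Hankel map. -/
theorem hank_count {ψ : ℕ → F} {c0 s : ℕ}
    (hbad : ∀ u : Fin s → F, u ≠ 0 → ∃ j < s + c0, ∑ l : Fin s, u l * ψ (j + l) ≠ 0)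
    (z : Fin s → F) (T : Finset (Fin s → F)) :
    (Finset.univ.filter (fun u : Fin (s + c0) → F => z + hank ψ (s + c0) s u ∈ T)).card =
      T.card * Fintype.card F ^ c0 := by
  classical
  have hs := hank_surj hbad
  obtain ⟨K, hK⟩ : ∃ K, ∀ v : Fin s → F, (Finset.univ.filter
      (fun u : Fin (s + c0) → F => hank ψ (s + c0) s u = v)).card = K := by
    refine ⟨(Finset.univ.filter (fun u : Fin (s + c0) → F => hank ψ (s + c0) s u = 0)).card,
      fun v => ?_⟩
    obtain ⟨u0, hu0⟩ := hs v
    refine Finset.card_bij' (fun u _ => u - u0) (fun u _ => u + u0) ?_ ?_ ?_ ?_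
    · intro u hu
      rw [Finset.mem_filter] at hu ⊢
      refine ⟨Finset.mem_univ _, ?_⟩
      rw [map_sub, hu.2, hu0, sub_self]
    · intro u hu
      rw [Finset.mem_filter] at hu ⊢
      refine ⟨Finset.mem_univ _, ?_⟩
      rw [map_add, hu.2, hu0, zero_add]
    · intro u _; simp
    · intro u _; simp
  have htot : ∀ T : Finset (Fin s → F), (Finset.univ.filter
      (fun u : Fin (s + c0) → F => z + hank ψ (s + c0) s u ∈ T)).card = T.card * K := by
    intro T
    rw [Finset.card_eq_sum_card_fiberwise (s := Finset.univ.filter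
      (fun u : Fin (s + c0) → F => z + hank ψ (s + c0) s u ∈ T))
      (f := fun u => z + hank ψ (s + c0) s u) (t := T)
      (fun u hu => by simpa using hu)]
    rw [Finset.sum_const_nat (m := K)]
    intro v hv
    rw [← hK (v - z)]
    congr 1
    ext u
    simp only [Finset.mem_filter, Finset.mem_univ, true_and]
    constructor
    · rintro ⟨_, h⟩; rw [← h]; simp
    · intro h
      have : z + hank ψ (s + c0) s u = v := by rw [h]; simp
      exact ⟨by rw [this]; exact hv, this⟩
  have huniv := htot Finset.univ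
  simp only [Finset.mem_univ, Finset.filter_true, Finset.card_univ, Fintype.card_fun,
    Fintype.card_fin] at huniv
  have hq : 0 < Fintype.card F := Fintype.card_pos
  have hKq : K = Fintype.card F ^ c0 := by
    rw [pow_add] at huniv
    exact (Nat.eq_of_mul_eq_mul_left (by positivity) huniv).symm
  rw [htot, hKq]

/-! ### digits in a constant base -/

theorem D_const (b n : ℕ) : D (fun _ => b) n = b ^ n := by simp [D]

theorem aN_lt {b : ℕ} {e : ℕ → ℕ} (he : ∀ n, e n < b) (n : ℕ) : aN (fun _ => b) e n < b ^ n := by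
  induction n with
  | zero => simp [aN]
  | succ n ih =>
    rw [aN, pow_succ]
    have h1 := he n
    have h2 : b * aN (fun _ => b) e n + b ≤ b ^ n * b := by
      have : aN (fun _ => b) e n + 1 ≤ b ^ n := ih
      calc b * aN (fun _ => b) e n + b = b * (aN (fun _ => b) e n + 1) := by ring
        _ ≤ b * b ^ n := Nat.mul_le_mul_left _ this
        _ = b ^ n * b := mul_comm _ _
    show b * aN (fun _ => b) e n + e n < b ^ n * b
    omega

/-- The value is within one unit of its prefix. -/
theorem val_bounds {b : ℕ} (hb : 2 ≤ b) {e : ℕ → ℕ} (he : ∀ n, e n < b) (n : ℕ) :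
    (aN (fun _ => b) e n : ℝ) / b ^ n ≤ val (fun _ => b) e ∧
      val (fun _ => b) e ≤ ((aN (fun _ => b) e n : ℝ) + 1) / b ^ n := by
  have h1 := FF_le_val (q := fun _ => b) (fun _ => hb) he n
  have h2 := val_le (q := fun _ => b) (fun _ => hb) he n
  have h3 := FF_eq (q := fun _ => b) (fun _ => hb) e n
  rw [D_const] at h2 h3
  push_cast at h2 h3
  have hp : (0 : ℝ) < (b : ℝ) ^ n := by
    have : (0 : ℝ) < b := by exact_mod_cast (show 0 < b by omega)
    positivity
  rw [← h3]
  constructor
  · rw [mul_div_cancel_left₀ _ hp.ne']; exact h1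
  · have : ((b : ℝ) ^ n * FF (fun _ => b) e n + 1) / b ^ n = FF (fun _ => b) e n + 1 / b ^ n := by
      field_simp
    rw [this]; exact h2

/-- Patterns whose prefix integer is below `M`. -/
theorem card_prefix (E : F ≃ Fin (Fintype.card F)) (s M : ℕ) (hM : M ≤ Fintype.card F ^ s) :
    (Finset.univ.filter (fun v : Fin s → F => aN (fun _ => Fintype.card F)
      (fun k => if h : k < s then (E (v ⟨k, h⟩) : ℕ) else 0) s < M)).card = M := by
  classical
  have hq : 0 < Fintype.card F := Fintype.card_pos
  let g : (Fin s → F) → ℕ := fun v => aN (fun _ => Fintype.card F)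
      (fun k => if h : k < s then (E (v ⟨k, h⟩) : ℕ) else 0) s
  have hdig : ∀ v : Fin s → F, ∀ k, (if h : k < s then (E (v ⟨k, h⟩) : ℕ) else 0) < Fintype.card F := by
    intro v k
    split_ifs with h
    · exact (E (v ⟨k, h⟩)).2
    · exact hq
  have hg1 : ∀ v, g v < Fintype.card F ^ s := fun v => aN_lt (hdig v) s
  have hginj : Function.Injective g := by
    intro v v' h
    have := aN_inj (q := fun _ => Fintype.card F) (hdig v) (hdig v') h
    funext i
    have h1 := this i i.2
    simp only [i.2, dif_pos] at h1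
    exact E.injective (Fin.ext h1)
  have himg : Finset.univ.image g = Finset.range (Fintype.card F ^ s) := by
    apply Finset.eq_of_subset_of_card_le
    · intro k hk
      rw [Finset.mem_image] at hk
      obtain ⟨v, -, rfl⟩ := hk
      exact Finset.mem_range.2 (hg1 v)
    · rw [Finset.card_image_of_injective _ hginj, Finset.card_range, Finset.card_univ,
        Fintype.card_fun, Fintype.card_fin]
  have h1 : (Finset.univ.filter (fun v : Fin s → F => g v < M)).image g = Finset.range M := by
    ext k
    simp only [Finset.mem_image, Finset.mem_filter, Finset.mem_univ, true_and, Finset.mem_range]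
    constructor
    · rintro ⟨v, hv, rfl⟩; exact hv
    · intro hk
      have : k ∈ Finset.univ.image g := by
        rw [himg, Finset.mem_range]; omega
      rw [Finset.mem_image] at this
      obtain ⟨v, -, hv⟩ := this
      exact ⟨v, by rw [hv]; exact hk, hv⟩
  have h2 := congrArg Finset.card h1
  rw [Finset.card_image_of_injective _ hginj, Finset.card_range] at h2
  exact h2

/-- **Digital Kronecker count.** -/
theorem kron_count (E : F ≃ Fin (Fintype.card F)) {ψ : ℕ → F} {c0 : ℕ}
    (hbad : ∀ s, ∀ u : Fin s → F, u ≠ 0 → ∃ j < s + c0, ∑ l : Fin s, u l * ψ (j + l) ≠ 0)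
    (z : ℕ → F) (r : ℕ) (γ : ℝ) (h0 : 0 ≤ γ) (h1 : γ ≤ 1) :
    |((Finset.univ.filter (fun u : Fin r → F => val (fun _ => Fintype.card F)
      (fun k => (E (z k + ∑ l : Fin r, u l * ψ (k + l)) : ℕ)) < γ)).card : ℝ) -
      γ * (Fintype.card F : ℝ) ^ r| ≤ 2 * (Fintype.card F : ℝ) ^ c0 := by
  classical
  have hq2 : 2 ≤ Fintype.card F := Fintype.one_lt_card
  obtain ⟨q, hq⟩ : ∃ q, q = Fintype.card F := ⟨_, rfl⟩
  have hqr : (1 : ℝ) ≤ Fintype.card F := by exact_mod_cast (show 1 ≤ Fintype.card F by omega)
  rcases lt_or_ge r c0 with hr | hr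
  · -- few points
    have hc : ((Finset.univ.filter (fun u : Fin r → F => val (fun _ => Fintype.card F)
      (fun k => (E (z k + ∑ l : Fin r, u l * ψ (k + l)) : ℕ)) < γ)).card : ℝ) ≤
        (Fintype.card F : ℝ) ^ r := by
      have := Finset.card_filter_le (Finset.univ : Finset (Fin r → F))
        (fun u : Fin r → F => val (fun _ => Fintype.card F)
          (fun k => (E (z k + ∑ l : Fin r, u l * ψ (k + l)) : ℕ)) < γ)
      rw [Finset.card_univ, Fintype.card_fun, Fintype.card_fin] at this
      exact_mod_cast this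
    have hp : (Fintype.card F : ℝ) ^ r ≤ (Fintype.card F : ℝ) ^ c0 :=
      pow_le_pow_right₀ hqr hr.le
    have hn : (0 : ℝ) ≤ ((Finset.univ.filter (fun u : Fin r → F => val (fun _ => Fintype.card F)
      (fun k => (E (z k + ∑ l : Fin r, u l * ψ (k + l)) : ℕ)) < γ)).card : ℝ) := Nat.cast_nonneg _
    have hpos : (0 : ℝ) < (Fintype.card F : ℝ) ^ r := by positivity
    rw [abs_le]
    constructor <;> nlinarith
  · obtain ⟨s, rfl⟩ : ∃ s, r = s + c0 := ⟨r - c0, by omega⟩
    -- prefix integers
    let dg : (Fin (s + c0) → F) → ℕ → ℕ := fun u k => (E (z k + ∑ l : Fin (s + c0), u l * ψ (k + l)) : ℕ)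
    have hdg : ∀ u k, dg u k < Fintype.card F := fun u k => (E _).2
    have hpre : ∀ M, M ≤ Fintype.card F ^ s → (Finset.univ.filter (fun u : Fin (s + c0) → F =>
        aN (fun _ => Fintype.card F) (dg u) s < M)).card = M * Fintype.card F ^ c0 := by
      intro M hM
      have h2 := hank_count (hbad s) (fun j : Fin s => z j) (Finset.univ.filter
        (fun v : Fin s → F => aN (fun _ => Fintype.card F)
        (fun k => if h : k < s then (E (v ⟨k, h⟩) : ℕ) else 0) s < M))
      rw [card_prefix E s M hM] at h2
      rw [← h2]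
      congr 1
      ext u
      simp only [Finset.mem_filter, Finset.mem_univ, true_and]
      have : aN (fun _ => Fintype.card F) (dg u) s = aN (fun _ => Fintype.card F)
          (fun k => if h : k < s then
            (E (((fun j : Fin s => z j) + hank ψ (s + c0) s u) ⟨k, h⟩) : ℕ) else 0) s := by
        apply aN_congr
        intro i hi
        simp only [dif_pos hi]
        rfl
      rw [this]
    obtain ⟨m, hm⟩ : ∃ m, m = ⌊γ * (Fintype.card F : ℝ) ^ s⌋₊ := ⟨_, rfl⟩
    have hps : (0 : ℝ) < (Fintype.card F : ℝ) ^ s := by positivity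
    have hγ0 : 0 ≤ γ * (Fintype.card F : ℝ) ^ s := by positivity
    have hm1 : (m : ℝ) ≤ γ * (Fintype.card F : ℝ) ^ s := by rw [hm]; exact Nat.floor_le hγ0
    have hm2 : γ * (Fintype.card F : ℝ) ^ s < m + 1 := by rw [hm]; exact Nat.lt_floor_add_one _
    have hmle : m ≤ Fintype.card F ^ s := by
      have : (m : ℝ) ≤ ((Fintype.card F ^ s : ℕ) : ℝ) := by
        push_cast; nlinarith
      exact_mod_cast this
    -- lower bound
    have hlow : (m - 1) * Fintype.card F ^ c0 ≤ (Finset.univ.filter (fun u : Fin (s + c0) → F =>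
        val (fun _ => Fintype.card F) (dg u) < γ)).card := by
      rw [← hpre (m - 1) (by omega)]
      apply Finset.card_le_card
      intro u hu
      rw [Finset.mem_filter] at hu ⊢
      refine ⟨Finset.mem_univ _, ?_⟩
      have h2 := (val_bounds hq2 (hdg u) s).2
      have h3 : (aN (fun _ => Fintype.card F) (dg u) s : ℝ) + 2 ≤ m := by
        have := hu.2
        have : aN (fun _ => Fintype.card F) (dg u) s + 2 ≤ m := by omega
        exact_mod_cast this
      refine lt_of_le_of_lt h2 ?_
      rw [div_lt_iff₀ hps]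
      linarith
    have hup : (Finset.univ.filter (fun u : Fin (s + c0) → F =>
        val (fun _ => Fintype.card F) (dg u) < γ)).card ≤ (m + 1) * Fintype.card F ^ c0 := by
      rcases le_or_gt (m + 1) (Fintype.card F ^ s) with hle | hgt
      · rw [← hpre (m + 1) hle]
        apply Finset.card_le_card
        intro u hu
        rw [Finset.mem_filter] at hu ⊢
        refine ⟨Finset.mem_univ _, ?_⟩
        have h2 := (val_bounds hq2 (hdg u) s).1
        have h3 : (aN (fun _ => Fintype.card F) (dg u) s : ℝ) < γ * (Fintype.card F : ℝ) ^ s := by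
          have := lt_of_le_of_lt h2 hu.2
          rwa [div_lt_iff₀ hps] at this
        have h4 : (aN (fun _ => Fintype.card F) (dg u) s : ℝ) < m + 1 := h3.trans hm2
        exact_mod_cast h4
      · have := Finset.card_filter_le (Finset.univ : Finset (Fin (s + c0) → F))
          (fun u : Fin (s + c0) → F => val (fun _ => Fintype.card F) (dg u) < γ)
        rw [Finset.card_univ, Fintype.card_fun, Fintype.card_fin, pow_add] at this
        exact this.trans (Nat.mul_le_mul_right _ hgt.le)
    have hlow' : ((m : ℝ) - 1) * (Fintype.card F : ℝ) ^ c0 ≤ ((Finset.univ.filter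
        (fun u : Fin (s + c0) → F => val (fun _ => Fintype.card F) (dg u) < γ)).card : ℝ) := by
      have h2 : (((m - 1 : ℕ) : ℝ)) * (Fintype.card F : ℝ) ^ c0 ≤ ((Finset.univ.filter
        (fun u : Fin (s + c0) → F => val (fun _ => Fintype.card F) (dg u) < γ)).card : ℝ) := by
        exact_mod_cast hlow
      refine le_trans ?_ h2
      apply mul_le_mul_of_nonneg_right _ (by positivity)
      have : m ≤ (m - 1) + 1 := by omega
      have : (m : ℝ) ≤ ((m - 1 : ℕ) : ℝ) + 1 := by exact_mod_cast this
      linarith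
    have hup' : ((Finset.univ.filter (fun u : Fin (s + c0) → F =>
        val (fun _ => Fintype.card F) (dg u) < γ)).card : ℝ) ≤
        ((m : ℝ) + 1) * (Fintype.card F : ℝ) ^ c0 := by exact_mod_cast hup
    have hpc : (0 : ℝ) < (Fintype.card F : ℝ) ^ c0 := by positivity
    rw [pow_add, ← mul_assoc, abs_le]
    constructor <;> nlinarith

end Pool.Agent.Q3.FFKr
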