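import Pool.Agent.Q3.FFKr.Count

/-!
# Digital Kronecker - van der Corput sequences over function fields have low discrepancy
-/

set_option autoImplicit false

open Filter Topology Set Polynomial

namespace Pool.Agent.Q3.FFKr

open Pool.Agent.Q3.CantorS

variable {F : Type} [Field F] [Fintype F]

open Classical in
theorem class_AA (E : F ≃ Fin (Fintype.card F)) (hE : (E 0 : ℕ) = 0) {P : F[X]} (hP : P ≠ 0)
    {a : ℤ → F} {c0 : ℕ} (hb : BadC P a c0) (i : ℕ) (γ : ℝ) (h0 : 0 ≤ γ) (h1 : γ ≤ 1) (N u : ℕ)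
    (hu : u < (Fintype.card F ^ P.natDegree) ^ i) :
    |(((Finset.range N).filter (fun n => AA E P (np E n) i = u ∧ KK E a (np E n) < γ)).card : ℝ) -
      γ * N / ((Fintype.card F : ℝ) ^ P.natDegree) ^ i| ≤
      (2 * (Fintype.card F : ℝ) ^ c0 + 1) * Fintype.card F * LL (Fintype.card F) N := by
  obtain ⟨R, hR⟩ := AA_surj E hP i u hu
  have h2 := class_count E hE hP hb i R γ h0 h1 N 0
  rw [pow_zero, mul_one, pow_zero, mul_one, pow_mul] at h2
  have h3 : (Finset.range N).filter (fun n => AA E P (np E n) i = u ∧ KK E a (np E n) < γ) =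
      (Finset.range N).filter (fun n => P ^ i ∣ np E n - R ∧ KK E a (np E n) < γ) := by
    ext n
    simp only [Finset.mem_filter]
    rw [← hR, AA_eq_iff E hP]
  rw [h3]
  exact h2

open Classical in
theorem below (E : F ≃ Fin (Fintype.card F)) (hE : (E 0 : ℕ) = 0) {P : F[X]} (hP : P ≠ 0)
    {a : ℤ → F} {c0 : ℕ} (hb : BadC P a c0) (γ : ℝ) (h0 : 0 ≤ γ) (h1 : γ ≤ 1) (N i : ℕ) :
    ∀ B, B ≤ (Fintype.card F ^ P.natDegree) ^ i →
    |(((Finset.range N).filter (fun n => AA E P (np E n) i < B ∧ KK E a (np E n) < γ)).card : ℝ) -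
      γ * N * B / ((Fintype.card F : ℝ) ^ P.natDegree) ^ i| ≤
      (i * (Fintype.card F : ℝ) ^ P.natDegree + 1) *
      ((2 * (Fintype.card F : ℝ) ^ c0 + 1) * Fintype.card F * LL (Fintype.card F) N) := by
  obtain ⟨Er, hEr⟩ : ∃ Er, Er = (2 * (Fintype.card F : ℝ) ^ c0 + 1) * Fintype.card F *
    LL (Fintype.card F) N := ⟨_, rfl⟩
  have hErn : 0 ≤ Er := by rw [hEr]; positivity
  rw [← hEr]
  obtain ⟨Q, hQ⟩ : ∃ Q, Q = Fintype.card F ^ P.natDegree := ⟨_, rfl⟩
  have hQp : 0 < Q := by rw [hQ]; exact pow_pos Fintype.card_pos _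
  have hQr : ((Fintype.card F : ℝ) ^ P.natDegree) = Q := by rw [hQ]; push_cast; rfl
  have hcl := fun i u (hu : u < (Fintype.card F ^ P.natDegree) ^ i) =>
    class_AA E hE hP hb i γ h0 h1 N u hu
  rw [← hEr] at hcl
  rw [hQr]
  rw [hQr, ← hQ] at hcl
  rw [← hQ]
  have hQr0 : (0 : ℝ) < Q := by exact_mod_cast hQp
  induction i with
  | zero =>
    intro B hB
    rw [pow_zero] at hB
    rcases Nat.eq_zero_or_pos B with hB0 | hB0
    · subst hB0
      simp only [Nat.not_lt_zero, false_and, Finset.filter_false, Finset.card_empty]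
      simp [hErn]
    · have hB1 : B = 1 := by omega
      subst hB1
      have h2 := hcl 0 0 (by simp)
      have h3 : (Finset.range N).filter (fun n => AA E P (np E n) 0 < 1 ∧ KK E a (np E n) < γ) =
          (Finset.range N).filter (fun n => AA E P (np E n) 0 = 0 ∧ KK E a (np E n) < γ) := by
        ext n
        simp only [Finset.mem_filter, Nat.lt_one_iff]
      rw [h3]
      simpa using h2
  | succ i ih =>
    intro B hB
    obtain ⟨B', hB'⟩ : ∃ B', B' = B / Q := ⟨_, rfl⟩
    obtain ⟨d, hd⟩ : ∃ d, d = B % Q := ⟨_, rfl⟩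
    have hBd : B = Q * B' + d := by rw [hB', hd]; exact (Nat.div_add_mod _ _).symm
    have hdQ : d < Q := by rw [hd]; exact Nat.mod_lt _ hQp
    have hB'le : B' ≤ Q ^ i := by
      rw [hB', Nat.div_le_iff_le_mul_add_pred hQp]
      rw [pow_succ] at hB
      calc B ≤ Q ^ i * Q := hB
        _ = Q * Q ^ i := mul_comm _ _
        _ ≤ _ := Nat.le_add_right _ _
    have h2 := ih B' hB'le
    have key : ∀ δ, δ ≤ d →
        |(((Finset.range N).filter (fun n => AA E P (np E n) (i + 1) < Q * B' + δ ∧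
          KK E a (np E n) < γ)).card : ℝ) - γ * N * (Q * B' + δ) / (Q : ℝ) ^ (i + 1)| ≤
        (i * (Q : ℝ) + 1) * Er + δ * Er := by
      intro δ
      induction δ with
      | zero =>
        intro _
        have h3 : (Finset.range N).filter (fun n => AA E P (np E n) (i + 1) < Q * B' + 0 ∧
            KK E a (np E n) < γ) = (Finset.range N).filter (fun n => AA E P (np E n) i < B' ∧
            KK E a (np E n) < γ) := by
          ext n
          simp only [Finset.mem_filter]
          have hiff : AA E P (np E n) (i + 1) < Q * B' + 0 ↔ AA E P (np E n) i < B' := by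
            rw [AA_succ, ← hQ, add_zero]
            have hv := vd_lt E P (np E n) i
            rw [← hQ] at hv
            constructor
            · intro h
              by_contra hge
              push Not at hge
              have := Nat.mul_le_mul_left Q hge
              omega
            · intro h
              have h4 : AA E P (np E n) i + 1 ≤ B' := h
              have := Nat.mul_le_mul_left Q h4
              rw [mul_add, mul_one] at this
              omega
          rw [hiff]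
        rw [h3]
        have e1 : γ * N * ((Q : ℝ) * B' + ((0 : ℕ) : ℝ)) / (Q : ℝ) ^ (i + 1) =
            γ * N * B' / (Q : ℝ) ^ i := by
          rw [pow_succ]; push_cast; field_simp; ring
        rw [e1]
        simpa using h2
      | succ δ ihδ =>
        intro hδ
        have h3 := ihδ (by omega)
        have h4 := hcl (i + 1) (Q * B' + δ) (by omega)
        have hsplit : ((Finset.range N).filter (fun n => AA E P (np E n) (i + 1) < Q * B' + (δ + 1) ∧
            KK E a (np E n) < γ)).card = ((Finset.range N).filter (fun n =>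
            AA E P (np E n) (i + 1) < Q * B' + δ ∧ KK E a (np E n) < γ)).card +
            ((Finset.range N).filter (fun n => AA E P (np E n) (i + 1) = Q * B' + δ ∧
            KK E a (np E n) < γ)).card := by
          rw [← Finset.card_union_of_disjoint]
          · congr 1
            ext n
            simp only [Finset.mem_filter, Finset.mem_union]
            constructor
            · rintro ⟨hn, h5, h6⟩
              rcases Nat.lt_succ_iff_lt_or_eq.1 (show _ < (Q * B' + δ) + 1 from h5) with h7 | h7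
              · left; exact ⟨hn, h7, h6⟩
              · right; exact ⟨hn, h7, h6⟩
            · rintro (⟨hn, h5, h6⟩ | ⟨hn, h5, h6⟩)
              · exact ⟨hn, by omega, h6⟩
              · exact ⟨hn, by omega, h6⟩
          · rw [Finset.disjoint_left]
            intro n hn hn'
            rw [Finset.mem_filter] at hn hn'
            have := hn.2.1
            rw [hn'.2.1] at this
            exact lt_irrefl _ this
        rw [hsplit]
        push_cast at h4 ⊢
        have e1 : γ * N * ((Q : ℝ) * B' + (δ + 1)) / (Q : ℝ) ^ (i + 1) =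
            γ * N * ((Q : ℝ) * B' + δ) / (Q : ℝ) ^ (i + 1) + γ * N / (Q : ℝ) ^ (i + 1) := by ring
        rw [e1]
        obtain ⟨l1, l2⟩ := abs_le.1 h3
        obtain ⟨l3, l4⟩ := abs_le.1 h4
        rw [abs_le]
        constructor <;> linarith
    have h3 := key d le_rfl
    rw [← hBd] at h3
    have e4 : ((Q : ℝ) * B' + d) = B := by rw [hBd]; push_cast; ring
    rw [e4] at h3
    refine h3.trans ?_
    have h5 : (d : ℝ) ≤ Q := by exact_mod_cast hdQ.le
    push_cast
    nlinarith

/-- `V_n`, from the polynomial `g = n(t)`. -/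
noncomputable def VV (E : F ≃ Fin (Fintype.card F)) (P g : F[X]) : ℝ :=
  val (fun _ => Fintype.card F ^ P.natDegree) (vd E P g)

open Classical in
theorem box_count (E : F ≃ Fin (Fintype.card F)) (hE : (E 0 : ℕ) = 0) {P : F[X]} (hP : P ≠ 0)
    (hPd : 1 ≤ P.natDegree) {a : ℤ → F} {c0 : ℕ} (hb : BadC P a c0) (γ lam : ℝ) (h0 : 0 ≤ γ)
    (h1 : γ ≤ 1) (g0 : 0 ≤ lam) (g1 : lam ≤ 1) (N : ℕ) (hN : 2 ≤ N) :
    |(((Finset.range N).filter (fun n => KK E a (np E n) < γ ∧ VV E P (np E n) < lam)).card : ℝ) -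
      γ * lam * N| ≤
      (((Fintype.card F : ℝ) ^ P.natDegree + 1) *
      ((2 * (Fintype.card F : ℝ) ^ c0 + 1) * Fintype.card F) + 2) * 9 * Real.log N ^ 2 := by
  have hq2 : 2 ≤ Fintype.card F := Fintype.one_lt_card
  obtain ⟨i, hi⟩ : ∃ i, i = Nat.log (Fintype.card F) N + 1 := ⟨_, rfl⟩
  obtain ⟨Q, hQ⟩ : ∃ Q, Q = Fintype.card F ^ P.natDegree := ⟨_, rfl⟩
  have hQ2 : Fintype.card F ≤ Q := by
    rw [hQ]; calc Fintype.card F = Fintype.card F ^ 1 := (pow_one _).symm
      _ ≤ _ := Nat.pow_le_pow_right (by omega) hPd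
  have hQr : ((Fintype.card F : ℝ) ^ P.natDegree) = Q := by rw [hQ]; push_cast; rfl
  have hQi : N ≤ Q ^ i := by
    have h2 : N < Fintype.card F ^ i := by rw [hi]; exact Nat.lt_pow_succ_log_self (by omega) N
    exact h2.le.trans (Nat.pow_le_pow_left hQ2 i)
  have hQ0 : (0 : ℝ) < Q := by exact_mod_cast (show 0 < Q by omega)
  have hQir : (N : ℝ) ≤ (Q : ℝ) ^ i := by exact_mod_cast hQi
  have hQip : (0 : ℝ) < (Q : ℝ) ^ i := by positivity
  obtain ⟨m, hm⟩ : ∃ m, m = ⌊lam * (Q : ℝ) ^ i⌋₊ := ⟨_, rfl⟩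
  have hm1 : (m : ℝ) ≤ lam * (Q : ℝ) ^ i := by rw [hm]; exact Nat.floor_le (by positivity)
  have hm2 : lam * (Q : ℝ) ^ i < m + 1 := by rw [hm]; exact Nat.lt_floor_add_one _
  have hmle : m ≤ Q ^ i := by
    have : (m : ℝ) ≤ ((Q ^ i : ℕ) : ℝ) := by push_cast; nlinarith
    exact_mod_cast this
  obtain ⟨Er, hEr⟩ : ∃ Er, Er = (2 * (Fintype.card F : ℝ) ^ c0 + 1) * Fintype.card F := ⟨_, rfl⟩
  have hErn : 0 ≤ Er := by rw [hEr]; positivity
  have hb1 := below E hE hP hb γ h0 h1 N i (m - 1) (by rw [← hQ]; omega)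
  have hb2 := below E hE hP hb γ h0 h1 N i (min (m + 1) (Q ^ i)) (by rw [← hQ]; exact min_le_right _ _)
  rw [hQr, ← hEr] at hb1 hb2
  rw [hQr, ← hEr]
  have hLL : LL (Fintype.card F) N = i := by unfold LL; rw [if_neg (by omega), hi]
  rw [hLL] at hb1 hb2
  have hvb : ∀ n, (AA E P (np E n) i : ℝ) / (Q : ℝ) ^ i ≤ VV E P (np E n) ∧
      VV E P (np E n) ≤ ((AA E P (np E n) i : ℝ) + 1) / (Q : ℝ) ^ i := by
    intro n
    have h2 := val_bounds (b := Fintype.card F ^ P.natDegree) (by rw [← hQ]; omega)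
      (vd_lt E P (np E n)) i
    rw [← hQ] at h2
    unfold VV AA
    rw [← hQ]
    exact h2
  have hlow : ((Finset.range N).filter (fun n => AA E P (np E n) i < m - 1 ∧
      KK E a (np E n) < γ)).card ≤
      ((Finset.range N).filter (fun n => KK E a (np E n) < γ ∧ VV E P (np E n) < lam)).card := by
    apply Finset.card_le_card
    intro n hn
    rw [Finset.mem_filter] at hn ⊢
    refine ⟨hn.1, hn.2.2, lt_of_le_of_lt (hvb n).2 ?_⟩
    rw [div_lt_iff₀ hQip]
    have h3 : (AA E P (np E n) i : ℝ) + 2 ≤ m := by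
      have := hn.2.1
      have : AA E P (np E n) i + 2 ≤ m := by omega
      exact_mod_cast this
    linarith
  have hup : ((Finset.range N).filter (fun n => KK E a (np E n) < γ ∧ VV E P (np E n) < lam)).card ≤
      ((Finset.range N).filter (fun n => AA E P (np E n) i < min (m + 1) (Q ^ i) ∧
      KK E a (np E n) < γ)).card := by
    apply Finset.card_le_card
    intro n hn
    rw [Finset.mem_filter] at hn ⊢
    refine ⟨hn.1, lt_min ?_ ?_, hn.2.1⟩
    · have h3 := lt_of_le_of_lt (hvb n).1 hn.2.2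
      rw [div_lt_iff₀ hQip] at h3
      have h4 : (AA E P (np E n) i : ℝ) < m + 1 := h3.trans hm2
      exact_mod_cast h4
    · rw [hQ]
      exact aN_lt (vd_lt E P (np E n)) i
  have hlow' : (((Finset.range N).filter (fun n => AA E P (np E n) i < m - 1 ∧
      KK E a (np E n) < γ)).card : ℝ) ≤
      (((Finset.range N).filter (fun n => KK E a (np E n) < γ ∧ VV E P (np E n) < lam)).card : ℝ) := by
    exact_mod_cast hlow
  have hup' : (((Finset.range N).filter (fun n => KK E a (np E n) < γ ∧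
      VV E P (np E n) < lam)).card : ℝ) ≤ (((Finset.range N).filter
      (fun n => AA E P (np E n) i < min (m + 1) (Q ^ i) ∧ KK E a (np E n) < γ)).card : ℝ) := by
    exact_mod_cast hup
  have hN0 : (0 : ℝ) ≤ N := Nat.cast_nonneg N
  have hγN : 0 ≤ γ * N := by positivity
  have hγN1 : γ * N ≤ (Q : ℝ) ^ i := by nlinarith
  -- main terms
  have t1 : γ * lam * N - 2 ≤ γ * N * ((m - 1 : ℕ) : ℝ) / (Q : ℝ) ^ i := by
    rw [le_div_iff₀ hQip]
    have h3 : (m : ℝ) - 1 ≤ ((m - 1 : ℕ) : ℝ) := by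
      have : m ≤ (m - 1) + 1 := by omega
      have : (m : ℝ) ≤ ((m - 1 : ℕ) : ℝ) + 1 := by exact_mod_cast this
      linarith
    have h4 : lam * (Q : ℝ) ^ i - 2 ≤ ((m - 1 : ℕ) : ℝ) := by linarith
    nlinarith [mul_le_mul_of_nonneg_left h4 hγN]
  have t2 : γ * N * ((min (m + 1) (Q ^ i) : ℕ) : ℝ) / (Q : ℝ) ^ i ≤ γ * lam * N + 1 := by
    rw [div_le_iff₀ hQip]
    have h3 : ((min (m + 1) (Q ^ i) : ℕ) : ℝ) ≤ m + 1 := by
      have := min_le_left (m + 1) (Q ^ i)
      exact_mod_cast this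
    have h4 : ((min (m + 1) (Q ^ i) : ℕ) : ℝ) ≤ lam * (Q : ℝ) ^ i + 1 := by linarith
    nlinarith [mul_le_mul_of_nonneg_left h4 hγN]
  have hmain : |(((Finset.range N).filter (fun n => KK E a (np E n) < γ ∧
      VV E P (np E n) < lam)).card : ℝ) - γ * lam * N| ≤ (i * (Q : ℝ) + 1) * (Er * i) + 2 := by
    obtain ⟨l1, l2⟩ := abs_le.1 hb1
    obtain ⟨l3, l4⟩ := abs_le.1 hb2
    rw [abs_le]
    constructor <;> linarith
  refine hmain.trans ?_
  -- size of `i`
  have hlog2 : (0.6931471803 : ℝ) < Real.log 2 := Real.log_two_gt_d9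
  have hlogN : Real.log 2 ≤ Real.log N := Real.log_le_log (by norm_num) (by exact_mod_cast hN)
  have hiN : (i : ℝ) ≤ 3 * Real.log N := by
    have h3 : Fintype.card F ^ Nat.log (Fintype.card F) N ≤ N := Nat.pow_log_le_self _ (by omega)
    have h4 : 2 ^ Nat.log (Fintype.card F) N ≤ N := (Nat.pow_le_pow_left hq2 _).trans h3
    have h5 : (2 : ℝ) ^ Nat.log (Fintype.card F) N ≤ N := by exact_mod_cast h4
    have h6 := Real.log_le_log (by positivity) h5
    rw [Real.log_pow] at h6
    rw [hi]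
    push_cast
    have h7 : (0 : ℝ) ≤ (Nat.log (Fintype.card F) N : ℝ) := Nat.cast_nonneg _
    nlinarith
  have hi1 : (1 : ℝ) ≤ i := by rw [hi]; push_cast; linarith [(Nat.cast_nonneg (Nat.log (Fintype.card F) N) : (0:ℝ) ≤ _)]
  have hi2 : (i : ℝ) ^ 2 ≤ 9 * Real.log N ^ 2 := by nlinarith
  have hi3 : (i : ℝ) ≤ (i : ℝ) ^ 2 := by nlinarith
  have hi4 : (1 : ℝ) ≤ (i : ℝ) ^ 2 := by nlinarith
  calc (i * (Q : ℝ) + 1) * (Er * i) + 2 = Q * Er * (i : ℝ) ^ 2 + Er * i + 2 := by ring
    _ ≤ Q * Er * (i : ℝ) ^ 2 + Er * (i : ℝ) ^ 2 + 2 * (i : ℝ) ^ 2 := by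
        have := mul_le_mul_of_nonneg_left hi3 hErn
        linarith
    _ = (((Q : ℝ) + 1) * Er + 2) * (i : ℝ) ^ 2 := by ring
    _ ≤ (((Q : ℝ) + 1) * Er + 2) * (9 * Real.log N ^ 2) :=
        mul_le_mul_of_nonneg_left hi2 (by positivity)
    _ = _ := by ring

end Pool.Agent.Q3.FFKr
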