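import Pool.Agent.Q3.FFKr.Lin

/-!
# Digital Kronecker sequences over function fields: polynomials and class counts
-/

set_option autoImplicit false

open Filter Topology Set Polynomial

namespace Pool.Agent.Q3.FFKr

open Pool.Agent.Q3.CantorS

variable {F : Type} [Field F] [Fintype F]

/-- The element of `F` with digit `k mod q`. -/
def dF (E : F ≃ Fin (Fintype.card F)) (k : ℕ) : F :=
  E.symm ⟨k % Fintype.card F, Nat.mod_lt _ Fintype.card_pos⟩

/-- The polynomial `n(t)`. -/
noncomputable def np (E : F ≃ Fin (Fintype.card F)) (n : ℕ) : F[X] :=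
  ∑ i ∈ Finset.range (n + 1), monomial i (dF E (n / Fintype.card F ^ i))

theorem E_dF (E : F ≃ Fin (Fintype.card F)) (k : ℕ) : (E (dF E k) : ℕ) = k % Fintype.card F := by
  unfold dF; rw [Equiv.apply_symm_apply]

theorem dF_zero (E : F ≃ Fin (Fintype.card F)) (hE : (E 0 : ℕ) = 0) : dF E 0 = 0 := by
  apply E.injective
  apply Fin.ext
  rw [E_dF, hE]; simp

theorem dF_congr (E : F ≃ Fin (Fintype.card F)) {k k' : ℕ} (h : k % Fintype.card F = k' % Fintype.card F) :
    dF E k = dF E k' := by
  unfold dF; congr 2

theorem np_coeff (E : F ≃ Fin (Fintype.card F)) (hE : (E 0 : ℕ) = 0) (n i : ℕ) :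
    (np E n).coeff i = dF E (n / Fintype.card F ^ i) := by
  have hq2 : 2 ≤ Fintype.card F := Fintype.one_lt_card
  unfold np
  rw [finsetSum_coeff]
  simp only [coeff_monomial]
  rw [Finset.sum_ite_eq']
  split_ifs with h
  · rfl
  · rw [Finset.mem_range, not_lt] at h
    have h1 : n < Fintype.card F ^ i :=
      lt_of_lt_of_le (show n < i by omega) (Nat.lt_pow_self (by omega)).le
    rw [Nat.div_eq_of_lt h1, dF_zero E hE]

/-- The polynomial with given coefficients. -/
noncomputable def polyOf {r : ℕ} (u : Fin r → F) : F[X] := ∑ l : Fin r, monomial (l : ℕ) (u l)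

omit [Fintype F] in
theorem polyOf_coeff {r : ℕ} (u : Fin r → F) (i : ℕ) :
    (polyOf u).coeff i = if h : i < r then u ⟨i, h⟩ else 0 := by
  unfold polyOf
  rw [finsetSum_coeff]
  simp only [coeff_monomial]
  split_ifs with h
  · rw [Finset.sum_eq_single ⟨i, h⟩]
    · simp
    · intro b _ hb
      rw [if_neg]
      intro h2
      exact hb (Fin.ext h2)
    · intro h2; exact absurd (Finset.mem_univ _) h2
  · apply Finset.sum_eq_zero
    intro b _
    rw [if_neg]
    intro h2
    exact h (h2 ▸ b.2)

omit [Fintype F] in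
theorem polyOf_degree {r : ℕ} (u : Fin r → F) : (polyOf u).degree < r := by
  rw [degree_lt_iff_coeff_zero]
  intro m hm
  rw [polyOf_coeff, dif_neg (by omega)]

omit [Fintype F] in
theorem polyOf_inj {r : ℕ} {u u' : Fin r → F} (h : polyOf u = polyOf u') : u = u' := by
  funext i
  have := congrArg (fun p => p.coeff (i : ℕ)) h
  simp only [polyOf_coeff, i.2, dif_pos] at this
  exact this

/-- Coefficient vector. -/
def vec (r : ℕ) (g : F[X]) : Fin r → F := fun l => g.coeff l

omit [Fintype F] in
theorem polyOf_vec {r : ℕ} {g : F[X]} (h : g.degree < r) : polyOf (vec r g) = g := by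
  ext i
  rw [polyOf_coeff]
  split_ifs with hi
  · rfl
  · rw [degree_lt_iff_coeff_zero] at h
    exact (h i (by omega)).symm

/-- Digit vector of a number. -/
def dvec (E : F ≃ Fin (Fintype.card F)) (r k : ℕ) : Fin r → F :=
  fun l => dF E (k / Fintype.card F ^ (l : ℕ))

theorem np_block (E : F ≃ Fin (Fintype.card F)) (hE : (E 0 : ℕ) = 0) (M r k : ℕ)
    (hk : k < Fintype.card F ^ r) :
    np E (M * Fintype.card F ^ r + k) = X ^ r * np E M + polyOf (dvec E r k) := by
  have hq : 0 < Fintype.card F := Fintype.card_pos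
  ext i
  rw [np_coeff E hE, coeff_add, polyOf_coeff, mul_comm (X ^ r), coeff_mul_X_pow']
  rcases lt_or_ge i r with h | h
  · rw [if_neg (by omega), dif_pos h, zero_add]
    show dF E _ = dF E _
    apply dF_congr
    have h1 : M * Fintype.card F ^ r = (M * Fintype.card F ^ (r - i - 1) * Fintype.card F) *
        Fintype.card F ^ i := by
      rw [mul_assoc, mul_assoc, ← pow_succ', ← pow_add]
      congr 2
      omega
    rw [h1, add_comm, Nat.add_mul_div_right _ _ (by positivity), Nat.add_mul_mod_self_right]
  · rw [if_pos h, dif_neg (by omega), add_zero, np_coeff E hE]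
    congr 1
    have h1 : Fintype.card F ^ i = Fintype.card F ^ r * Fintype.card F ^ (i - r) := by
      rw [← pow_add]; congr 1; omega
    rw [h1, ← Nat.div_div_eq_div_mul]
    congr 1
    rw [add_comm, Nat.add_mul_div_right _ _ (by positivity), Nat.div_eq_of_lt hk, zero_add]

theorem dvec_inj (E : F ≃ Fin (Fintype.card F)) (r : ℕ) {k k' : ℕ} (hk : k < Fintype.card F ^ r)
    (hk' : k' < Fintype.card F ^ r) (h : dvec E r k = dvec E r k') : k = k' := by
  have key : ∀ l, l ≤ r → k % Fintype.card F ^ l = k' % Fintype.card F ^ l := by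
    intro l
    induction l with
    | zero => intro _; simp [Nat.mod_one]
    | succ l ih =>
      intro hl
      rw [Nat.mod_pow_succ, Nat.mod_pow_succ, ih (by omega)]
      have h1 := congrFun h ⟨l, by omega⟩
      have h2 : (E (dF E (k / Fintype.card F ^ l)) : ℕ) = E (dF E (k' / Fintype.card F ^ l)) := by
        have : dF E (k / Fintype.card F ^ l) = dF E (k' / Fintype.card F ^ l) := h1
        rw [this]
      rw [E_dF, E_dF] at h2
      rw [h2]
  have := key r le_rfl
  rwa [Nat.mod_eq_of_lt hk, Nat.mod_eq_of_lt hk'] at this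

open Classical in
/-- Numbers in a block versus coefficient vectors. -/
theorem count_block (E : F ≃ Fin (Fintype.card F)) (hE : (E 0 : ℕ) = 0) (M r : ℕ) (Q : F[X] → Prop) :
    ((Finset.Ico (M * Fintype.card F ^ r) ((M + 1) * Fintype.card F ^ r)).filter
      (fun n => Q (np E n))).card =
    (Finset.univ.filter (fun u : Fin r → F => Q (X ^ r * np E M + polyOf u))).card := by
  have hq : 0 < Fintype.card F := Fintype.card_pos
  have hsurj : ∀ u : Fin r → F, ∃ k, k < Fintype.card F ^ r ∧ dvec E r k = u := by
    have himg : (Finset.range (Fintype.card F ^ r)).image (dvec E r) = Finset.univ := by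
      apply Finset.eq_of_subset_of_card_le (Finset.subset_univ _)
      rw [Finset.card_image_of_injOn, Finset.card_range, Finset.card_univ, Fintype.card_fun,
        Fintype.card_fin]
      intro k hk k' hk' h
      exact dvec_inj E r (by simpa using hk) (by simpa using hk') h
    intro u
    have : u ∈ (Finset.range (Fintype.card F ^ r)).image (dvec E r) := by
      rw [himg]; exact Finset.mem_univ _
    rw [Finset.mem_image] at this
    obtain ⟨k, hk, hk2⟩ := this
    exact ⟨k, Finset.mem_range.1 hk, hk2⟩
  refine Finset.card_bij (fun n _ => dvec E r (n - M * Fintype.card F ^ r)) ?_ ?_ ?_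
  · intro n hn
    rw [Finset.mem_filter, Finset.mem_Ico] at hn
    rw [Finset.mem_filter]
    refine ⟨Finset.mem_univ _, ?_⟩
    have h1 : n - M * Fintype.card F ^ r < Fintype.card F ^ r := by
      have := hn.1.2
      rw [add_mul, one_mul] at this
      omega
    rw [← np_block E hE M r _ h1]
    rw [show M * Fintype.card F ^ r + (n - M * Fintype.card F ^ r) = n by omega]
    exact hn.2
  · intro n hn n' hn' h
    rw [Finset.mem_filter, Finset.mem_Ico, add_mul, one_mul] at hn hn'
    have := dvec_inj E r (show n - M * Fintype.card F ^ r < _ by omega)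
      (show n' - M * Fintype.card F ^ r < _ by omega) h
    omega
  · intro u hu
    rw [Finset.mem_filter] at hu
    obtain ⟨k, hk, rfl⟩ := hsurj u
    refine ⟨M * Fintype.card F ^ r + k, ?_, ?_⟩
    · rw [Finset.mem_filter, Finset.mem_Ico, np_block E hE M r k hk]
      refine ⟨⟨by omega, ?_⟩, hu.2⟩
      rw [add_mul, one_mul]; omega
    · rw [Nat.add_sub_cancel_left]

open Classical in
/-- Vectors in a residue class, large range. -/
theorem count_class (r : ℕ) {G : F[X]} (hG : G ≠ 0) (hGr : G.natDegree ≤ r) (f R : F[X])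
    (Q : F[X] → Prop) : ∃ w0 : F[X],
    (Finset.univ.filter (fun u : Fin r → F => G ∣ f + polyOf u - R ∧ Q (polyOf u))).card =
    (Finset.univ.filter (fun v : Fin (r - G.natDegree) → F => Q (w0 + G * polyOf v))).card := by
  obtain ⟨w0, hw0⟩ : ∃ w0, w0 = (R - f) % G := ⟨_, rfl⟩
  have hdeg : w0.degree < G.degree := by rw [hw0]; exact degree_mod_lt _ hG
  have hGd : G.degree = (G.natDegree : WithBot ℕ) := degree_eq_natDegree hG
  have hdvd : G ∣ f + w0 - R := by
    have h1 := EuclideanDomain.div_add_mod (R - f) G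
    rw [← hw0] at h1
    refine ⟨-((R - f) / G), ?_⟩
    linear_combination h1
  have hw0r : w0.degree < r := by
    refine lt_of_lt_of_le hdeg ?_
    rw [hGd]; exact_mod_cast hGr
  have hmul : ∀ v : Fin (r - G.natDegree) → F, (w0 + G * polyOf v).degree < r := by
    intro v
    refine lt_of_le_of_lt (degree_add_le _ _) (max_lt hw0r ?_)
    rw [degree_mul, hGd]
    have h1 := polyOf_degree v
    rcases eq_or_ne (polyOf v) 0 with h0 | h0
    · rw [h0, degree_zero]; simp
    · rw [degree_eq_natDegree h0] at h1 ⊢
      have h2 : (polyOf v).natDegree < r - G.natDegree := by exact_mod_cast h1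
      have : G.natDegree + (polyOf v).natDegree < r := by omega
      exact_mod_cast this
  refine ⟨w0, Eq.symm (Finset.card_bij (fun v _ => vec r (w0 + G * polyOf v)) ?_ ?_ ?_)⟩
  · intro v hv
    rw [Finset.mem_filter] at hv ⊢
    refine ⟨Finset.mem_univ _, ?_⟩
    rw [polyOf_vec (hmul v)]
    refine ⟨?_, hv.2⟩
    have : f + (w0 + G * polyOf v) - R = (f + w0 - R) + G * polyOf v := by ring
    rw [this]
    exact dvd_add hdvd (dvd_mul_right _ _)
  · intro v _ v' _ h
    have h1 : w0 + G * polyOf v = w0 + G * polyOf v' := by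
      rw [← polyOf_vec (hmul v), ← polyOf_vec (hmul v'), h]
    exact polyOf_inj (mul_left_cancel₀ hG (add_left_cancel h1))
  · intro u hu
    rw [Finset.mem_filter] at hu
    obtain ⟨-, hd, hQ⟩ := hu
    have h1 : G ∣ polyOf u - w0 := by
      have : polyOf u - w0 = (f + polyOf u - R) - (f + w0 - R) := by ring
      rw [this]; exact dvd_sub hd hdvd
    obtain ⟨h, hh⟩ := h1
    have hu2 : polyOf u = w0 + G * h := by rw [← hh]; ring
    have hhd : h.degree < ((r - G.natDegree : ℕ) : WithBot ℕ) := by
      rcases eq_or_ne h 0 with h0 | h0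
      · rw [h0, degree_zero]; exact WithBot.bot_lt_coe _
      · have h2 : (polyOf u - w0).degree < r :=
          lt_of_le_of_lt (degree_sub_le _ _) (max_lt (polyOf_degree u) hw0r)
        rw [hh, degree_mul, hGd, degree_eq_natDegree h0] at h2
        rw [degree_eq_natDegree h0]
        have h3 : G.natDegree + h.natDegree < r := by exact_mod_cast h2
        have : h.natDegree < r - G.natDegree := by omega
        exact_mod_cast this
    refine ⟨vec _ h, ?_, ?_⟩
    · rw [Finset.mem_filter]
      refine ⟨Finset.mem_univ _, ?_⟩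
      rw [polyOf_vec hhd, ← hu2]; exact hQ
    · apply polyOf_inj
      rw [polyOf_vec (hmul _), polyOf_vec hhd, ← hu2]

open Classical in
/-- Vectors in a residue class, small range. -/
theorem count_class_small (r : ℕ) {G : F[X]} (hGr : r ≤ G.natDegree) (f R : F[X])
    (Q : F[X] → Prop) :
    (Finset.univ.filter (fun u : Fin r → F => G ∣ f + polyOf u - R ∧ Q (polyOf u))).card ≤ 1 := by
  rw [Finset.card_le_one]
  intro u hu u' hu'
  rw [Finset.mem_filter] at hu hu'
  have h1 : G ∣ polyOf u - polyOf u' := by
    have : polyOf u - polyOf u' = (f + polyOf u - R) - (f + polyOf u' - R) := by ring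
    rw [this]; exact dvd_sub hu.2.1 hu'.2.1
  have h2 : (polyOf u - polyOf u').degree < r :=
    lt_of_le_of_lt (degree_sub_le _ _) (max_lt (polyOf_degree u) (polyOf_degree u'))
  have h3 : polyOf u - polyOf u' = 0 := by
    by_contra h0
    have h4 := degree_le_of_dvd h1 h0
    rcases eq_or_ne G 0 with hG0 | hG0
    · rw [hG0, zero_dvd_iff] at h1; exact h0 h1
    · rw [degree_eq_natDegree hG0] at h4
      have h5 := lt_of_le_of_lt h4 h2
      have : G.natDegree < r := by exact_mod_cast h5
      omega
  exact polyOf_inj (sub_eq_zero.1 h3)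

/-! ### the action on Laurent series -/

/-- The coefficients of `b Θ`: `Θ = ∑ a_k t^{-k}` is given by `a : ℤ → F`. -/
noncomputable def act (b : F[X]) (a : ℤ → F) : ℤ → F :=
  fun k => ∑ l ∈ Finset.range (b.natDegree + 1), b.coeff l * a (k + l)

/-- Shift. -/
def sh : Module.End F (ℤ → F) where
  toFun a k := a (k + 1)
  map_add' _ _ := rfl
  map_smul' _ _ := rfl

omit [Fintype F] in
theorem sh_pow (l : ℕ) (a : ℤ → F) (k : ℤ) : ((sh : Module.End F (ℤ → F)) ^ l) a k = a (k + l) := by
  induction l generalizing k with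
  | zero => simp
  | succ l ih =>
    rw [pow_succ']
    show ((sh : Module.End F (ℤ → F)) ^ l) a (k + 1) = _
    rw [ih]
    congr 1
    push_cast; ring

omit [Fintype F] in
theorem act_eq (b : F[X]) (a : ℤ → F) : act b a = aeval (sh : Module.End F (ℤ → F)) b a := by
  funext k
  rw [aeval_eq_sum_range]
  simp only [LinearMap.sum_apply, LinearMap.smul_apply, Finset.sum_apply, Pi.smul_apply, sh_pow,
    smul_eq_mul]
  rfl

omit [Fintype F] in
theorem act_add (b c : F[X]) (a : ℤ → F) (k : ℤ) : act (b + c) a k = act b a k + act c a k := by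
  rw [act_eq, act_eq, act_eq, map_add]; rfl

omit [Fintype F] in
theorem act_mul (b c : F[X]) (a : ℤ → F) : act (b * c) a = act b (act c a) := by
  rw [act_eq, act_eq, act_eq, map_mul]; rfl

omit [Fintype F] in
theorem act_polyOf {r : ℕ} (u : Fin r → F) (a : ℤ → F) (k : ℤ) :
    act (polyOf u) a k = ∑ l : Fin r, u l * a (k + (l : ℕ)) := by
  rw [act_eq]
  unfold polyOf
  rw [map_sum]
  simp only [aeval_monomial, LinearMap.sum_apply, Finset.sum_apply]
  refine Finset.sum_congr rfl fun l _ => ?_
  rw [Module.End.mul_apply]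
  show u l * (((sh : Module.End F (ℤ → F)) ^ (l : ℕ)) a k) = _
  rw [sh_pow]

end Pool.Agent.Q3.FFKr
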